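import Pool.Agent.X180.Unr.Unir
import Pool.Agent.TH756.PR.Fin
import Pool.Agent.W602.GT.KPick

/-!
Covers of products of projective spaces, unramified outside arrangements of hyperplanes, which are
reducible in one factor.
-/

set_option autoImplicit false

open FF IntermediateField Pool.Agent.W603.LV Pool.Agent.W619.PQ Pool.Agent.W602.Cov
open Pool.Agent.W602.Cov.G Pool.Agent.W168.CG.PGR Pool.Agent.TH152.AC Pool.Agent.TH756.PR
open Pool.Agent.W602.GT (consts der_of_alg mem_consts exists_der)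

namespace Pool.Agent.X180.Unr

section lin

variable {n : ℕ} {K : Type} [Field K] [Algebra ℂ K]

theorem lf_add' (φ ψ : Form n) (x : Fin (n + 1) → K) : lf (φ + ψ) x = lf φ x + lf ψ x := by
  unfold lf
  rw [← Finset.sum_add_distrib]
  refine Finset.sum_congr rfl fun j _ => ?_
  rw [LinearMap.add_apply, map_add, add_mul]

theorem lf_smul' (c : ℂ) (φ : Form n) (x : Fin (n + 1) → K) :
    lf (c • φ) x = algebraMap ℂ K c * lf φ x := by
  unfold lf
  rw [Finset.mul_sum]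
  refine Finset.sum_congr rfl fun j _ => ?_
  rw [LinearMap.smul_apply, smul_eq_mul, map_mul, mul_assoc]

theorem lf_proj' (j : Fin (n + 1)) (x : Fin (n + 1) → K) : lf (LinearMap.proj j) x = x j := by
  classical
  unfold lf
  rw [Finset.sum_eq_single j]
  · simp
  · intro i _ hi
    simp [Pi.single_eq_of_ne hi.symm]
  · intro h
    exact absurd (Finset.mem_univ j) h

theorem form_eq (φ : Form n) : φ = ∑ j, φ (Pi.single j 1) • (LinearMap.proj j : Form n) := by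
  classical
  apply LinearMap.pi_ext'
  intro i
  ext
  simp only [LinearMap.coe_comp, LinearMap.coe_single, Function.comp_apply, LinearMap.sum_apply,
    LinearMap.smul_apply, LinearMap.proj_apply, smul_eq_mul]
  rw [Finset.sum_eq_single i]
  · simp
  · intro j _ hj
    simp [Pi.single_eq_of_ne hj]
  · intro h
    exact absurd (Finset.mem_univ i) h

/-- two linear maps on forms with the same values on the coordinates -/
theorem form_ind {M : Type} [AddCommMonoid M] [Module ℂ M] (f g : Form n →ₗ[ℂ] M)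
    (h : ∀ j, f (LinearMap.proj j) = g (LinearMap.proj j)) (φ : Form n) : f φ = g φ := by
  rw [form_eq φ, map_sum, map_sum]
  refine Finset.sum_congr rfl fun j _ => ?_
  rw [map_smul, map_smul, h]

end lin

/-- The variety with function field `K`, of dimension `N`, is unramified over the product of the
projective spaces outside of the hyperplanes. -/
def UnrOut {r : ℕ} (N : ℕ) {n q : Fin r → ℕ} (ℓ : ∀ i, Fin (q i) → Form (n i)) {K : Type} [Field K]
    [Algebra ℂ K] (x : ∀ i, Fin (n i + 1) → K) : Prop :=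
  ∀ P : Place ℂ K, Pool.Agent.W602.GT.Divisorial N P → ∀ a : Fin r → ℤ,
    (∀ i (φ : Form (n i)), lf φ (x i) = 0 ∨ a i ≤ P.ord (lf φ (x i))) →
    (∀ i, ∃ φ : Form (n i), lf φ (x i) ≠ 0 ∧ P.ord (lf φ (x i)) = a i) →
    (∀ i k, P.ord (lf (ℓ i k) (x i)) = a i) →
    ∃ z ∈ IntermediateField.adjoin ℂ (Set.range (aff x)), P.ord z = 1

theorem not_alg_of_der {K : Type} [Field K] [Algebra ℂ K] {E : IntermediateField ℂ K}
    (D : Derivation ℂ K K) (hE : ∀ z ∈ E, D z = 0) {t : K} (ht : D t ≠ 0) :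
    Transcendental E t := by
  intro h
  apply ht
  apply der_of_alg D
  have hle : E ≤ consts D := fun z hz => hE z hz
  obtain ⟨p, hp0, hp⟩ := h
  refine ⟨p.map (inclusion hle).toRingHom, ?_, ?_⟩
  · rw [Ne, Polynomial.map_eq_zero]
    exact hp0
  · rw [Polynomial.aeval_def, Polynomial.eval₂_map]
    rw [Polynomial.aeval_def] at hp
    exact hp

theorem exists_split {m : ℕ} {V₁ V₂ : Submodule ℂ (Fin (m + 1) → ℂ)} (h1 : V₁ ≠ ⊥) (h2 : V₂ ≠ ⊥)
    (hc : IsCompl V₁ V₂) : ∃ (π : (Fin (m + 1) → ℂ) →ₗ[ℂ] (Fin (m + 1) → ℂ)) (φ₁ φ₂ : Form m),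
      π ∘ₗ π = π ∧ φ₁ ≠ 0 ∧ φ₂ ≠ 0 ∧ φ₁ ∘ₗ π = 0 ∧ φ₂ ∘ₗ π = φ₂ ∧
      (∀ φ : Form m, (∀ v ∈ V₁, φ v = 0) → φ ∘ₗ π = φ) ∧
      ∀ φ : Form m, (∀ v ∈ V₂, φ v = 0) → φ ∘ₗ π = 0 := by
  obtain ⟨π, hπ1, hπ2, hππ⟩ : ∃ π : (Fin (m + 1) → ℂ) →ₗ[ℂ] (Fin (m + 1) → ℂ),
      (∀ v ∈ V₁, π v = 0) ∧ (∀ v ∈ V₂, π v = v) ∧ ∀ v, π v ∈ V₂ ∧ v - π v ∈ V₁ := by
    refine ⟨V₂.projection V₁ hc.symm, fun v hv => ?_, fun v hv => ?_, fun v => ⟨?_, ?_⟩⟩
    · exact (Submodule.projection_apply_eq_zero_iff hc.symm).2 hv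
    · exact Submodule.projection_apply_of_mem_left hc.symm hv
    · exact Submodule.projection_apply_mem hc.symm v
    · exact Submodule.sub_projection_mem hc.symm v
  have hid : π ∘ₗ π = π := LinearMap.ext fun v => hπ2 _ (hππ v).1
  obtain ⟨v₁, hv₁, hv₁0⟩ := (Submodule.ne_bot_iff _).1 h1
  obtain ⟨v₂, hv₂, hv₂0⟩ := (Submodule.ne_bot_iff _).1 h2
  obtain ⟨j₁, hj₁'⟩ := Function.ne_iff.1 hv₁0
  obtain ⟨j₂, hj₂'⟩ := Function.ne_iff.1 hv₂0
  have hj₁ : v₁ j₁ ≠ 0 := hj₁'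
  have hj₂ : v₂ j₂ ≠ 0 := hj₂'
  refine ⟨π, LinearMap.proj j₁ - LinearMap.proj j₁ ∘ₗ π, LinearMap.proj j₂ ∘ₗ π, hid, ?_, ?_, ?_,
    ?_, ?_, ?_⟩
  · intro h0
    have h3 := LinearMap.congr_fun h0 v₁
    rw [LinearMap.sub_apply, LinearMap.comp_apply, hπ1 v₁ hv₁, map_zero, sub_zero] at h3
    exact hj₁ h3
  · intro h0
    have h3 := LinearMap.congr_fun h0 v₂
    rw [LinearMap.comp_apply, hπ2 v₂ hv₂] at h3
    exact hj₂ h3
  · rw [LinearMap.sub_comp, LinearMap.comp_assoc, hid, sub_self]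
  · rw [LinearMap.comp_assoc, hid]
  · refine fun φ hφ => LinearMap.ext fun v => ?_
    have h3 := hφ _ (hππ v).2
    rw [map_sub, sub_eq_zero] at h3
    rw [LinearMap.comp_apply, h3]
  · refine fun φ hφ => LinearMap.ext fun v => ?_
    rw [LinearMap.comp_apply, LinearMap.zero_apply]
    exact hφ _ (hππ v).1

/-- Euler's derivation -/
theorem exists_euler {r : ℕ} {n : Fin r → ℕ} {K : Type} [Field K] [Algebra ℂ K]
    {x : ∀ i, Fin (n i + 1) → K} (hx0 : ∀ i, x i 0 ≠ 0) (hbas : IsTranscendenceBasis ℂ (aff x))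
    (i0 : Fin r) (π : (Fin (n i0 + 1) → ℂ) →ₗ[ℂ] (Fin (n i0 + 1) → ℂ)) :
    ∃ D : Derivation ℂ K K, (∀ b, b.1 ≠ i0 → D (aff x b) = 0) ∧
      (∀ φ ψ : Form (n i0), φ ∘ₗ π = 0 → ψ ∘ₗ π = 0 → D (lf φ (x i0) / lf ψ (x i0)) = 0) ∧
      (∀ φ ψ : Form (n i0), φ ∘ₗ π = φ → ψ ∘ₗ π = ψ → D (lf φ (x i0) / lf ψ (x i0)) = 0) ∧
      (∀ φ ψ : Form (n i0), φ ∘ₗ π = φ → ψ ∘ₗ π = 0 → ψ ≠ 0 →
        D (lf φ (x i0) / lf ψ (x i0)) = lf φ (x i0) / lf ψ (x i0)) := by
  classical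
  have hch : CharZero K := charZero_of_injective_algebraMap (algebraMap ℂ K).injective
  have hne : ∀ {φ : Form (n i0)}, φ ≠ 0 → lf φ (x i0) ≠ 0 := fun {φ} hφ => lfs_ne hx0 hbas i0 hφ
  obtain ⟨κ, hκ⟩ : ∃ κ, κ = lf ((LinearMap.proj 0 : Form (n i0)) ∘ₗ π) (x i0) / x i0 0 := ⟨_, rfl⟩
  obtain ⟨D, hD⟩ := exists_der (aff x) hbas (fun b => if h : b.1 = i0 then
    lf ((LinearMap.proj (h ▸ b.2).succ : Form (n i0)) ∘ₗ π) (x i0) / x i0 0 -
      x i0 (h ▸ b.2).succ / x i0 0 * κ else 0)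
  have hkey : ∀ φ : Form (n i0), D (lf φ (x i0) / x i0 0) =
      lf (φ ∘ₗ π) (x i0) / x i0 0 - lf φ (x i0) / x i0 0 * κ := by
    let f : Form (n i0) →ₗ[ℂ] K :=
      { toFun := fun φ => D (lf φ (x i0) / x i0 0)
        map_add' := fun φ ψ => by rw [lf_add', add_div, map_add]
        map_smul' := fun c φ => by
          rw [lf_smul', mul_div_assoc, ← Algebra.smul_def, D.map_smul, RingHom.id_apply] }
    let g : Form (n i0) →ₗ[ℂ] K :=
      { toFun := fun φ => lf (φ ∘ₗ π) (x i0) / x i0 0 - lf φ (x i0) / x i0 0 * κ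
        map_add' := fun φ ψ => by rw [LinearMap.add_comp, lf_add', lf_add']; ring
        map_smul' := fun c φ => by
          rw [LinearMap.smul_comp, lf_smul', lf_smul', RingHom.id_apply, Algebra.smul_def]
          ring }
    refine form_ind f g fun j => ?_
    change D (lf (LinearMap.proj j) (x i0) / x i0 0) =
      lf ((LinearMap.proj j) ∘ₗ π) (x i0) / x i0 0 - lf (LinearMap.proj j) (x i0) / x i0 0 * κ
    rw [lf_proj']
    refine Fin.cases ?_ (fun j => ?_) j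
    · rw [div_self (hx0 i0), D.map_one_eq_zero, hκ, one_mul, sub_self]
    · have h1 := hD ⟨i0, j⟩
      rw [dif_pos rfl] at h1
      exact h1
  have hquo : ∀ {φ ψ : Form (n i0)} {α β : K}, lf (φ ∘ₗ π) (x i0) = α * lf φ (x i0) →
      lf (ψ ∘ₗ π) (x i0) = β * lf ψ (x i0) → ψ ≠ 0 →
      D (lf φ (x i0) / lf ψ (x i0)) = (α - β) * (lf φ (x i0) / lf ψ (x i0)) := by
    intro φ ψ α β h1 h2 hψ
    have h0 := hne hψ
    have hx := hx0 i0
    have h3 : lf φ (x i0) / lf ψ (x i0) = (lf φ (x i0) / x i0 0) / (lf ψ (x i0) / x i0 0) := by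
      field_simp
    rw [h3, D.leibniz_div, hkey, hkey, h1, h2]
    simp only [smul_eq_mul]
    field_simp
    ring
  refine ⟨D, fun b hb => ?_, fun φ ψ h1 h2 => ?_, fun φ ψ h1 h2 => ?_, fun φ ψ h1 h2 h3 => ?_⟩
  · rw [hD, dif_neg hb]
  · by_cases hψ : ψ = 0
    · rw [hψ]
      have : lf (0 : Form (n i0)) (x i0) = 0 := by simp [lf]
      rw [this, div_zero, map_zero]
    · rw [hquo (α := 0) (β := 0) (by rw [h1]; simp [lf]) (by rw [h2]; simp [lf]) hψ, sub_self,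
        zero_mul]
  · by_cases hψ : ψ = 0
    · rw [hψ]
      have : lf (0 : Form (n i0)) (x i0) = 0 := by simp [lf]
      rw [this, div_zero, map_zero]
    · rw [hquo (α := 1) (β := 1) (by rw [h1, one_mul]) (by rw [h2, one_mul]) hψ, sub_self,
        zero_mul]
  · rw [hquo (α := 1) (β := 0) (by rw [h1, one_mul]) (by rw [h2]; simp [lf]) h3, sub_zero, one_mul]

theorem reducible_uniruled {r N : ℕ} {n q : Fin r → ℕ} {ℓ : ∀ i, Fin (q i) → Form (n i)}
    {K : Type} [Field K] [Algebra ℂ K] [Algebra.EssFiniteType ℂ K] {x : ∀ i, Fin (n i + 1) → K}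
    (hℓ : ∀ i k, ℓ i k ≠ 0) (i0 : Fin r) (hred : Reducible (ℓ i0)) (hx0 : ∀ i, x i 0 ≠ 0)
    (hbas : IsTranscendenceBasis ℂ (aff x)) (hN : Algebra.trdeg ℂ K = N)
    (hun : UnrOut N ℓ x) : IsUniruled ℂ K N := by
  classical
  have hch : CharZero K := charZero_of_injective_algebraMap (algebraMap ℂ K).injective
  have hne : ∀ i {φ : Form (n i)}, φ ≠ 0 → lf φ (x i) ≠ 0 := fun i φ hφ => lfs_ne hx0 hbas i hφ
  obtain ⟨V₁, V₂, h1, h2, hc, hV⟩ := hred
  obtain ⟨π, φ₁, φ₂, hππ, hφ₁, hφ₂, hφ₁π, hφ₂π, hW₂, hW₁⟩ := exists_split h1 h2 hc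
  obtain ⟨D, hD1, hD2, hD3, hD4⟩ := exists_euler hx0 hbas i0 π
  have hg₁ := hne i0 hφ₁
  have hg₂ := hne i0 hφ₂
  obtain ⟨t, ht⟩ : ∃ t, t = lf φ₂ (x i0) / lf φ₁ (x i0) := ⟨_, rfl⟩
  have ht0 : t ≠ 0 := by
    rw [ht]
    exact div_ne_zero hg₂ hg₁
  obtain ⟨E, hE⟩ : ∃ E : IntermediateField ℂ K, E = IntermediateField.adjoin ℂ
      ({y | ∃ b : (i : Fin r) × Fin (n i), b.1 ≠ i0 ∧ y = aff x b} ∪
        ({y | ∃ φ : Form (n i0), φ ∘ₗ π = 0 ∧ y = lf φ (x i0) / lf φ₁ (x i0)} ∪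
          {y | ∃ φ : Form (n i0), φ ∘ₗ π = φ ∧ y = lf φ (x i0) / lf φ₂ (x i0)})) := ⟨_, rfl⟩
  have hE1 : ∀ b : (i : Fin r) × Fin (n i), b.1 ≠ i0 → aff x b ∈ E := fun b hb => by
    rw [hE]
    exact subset_adjoin _ _ (Or.inl ⟨b, hb, rfl⟩)
  have hE2 : ∀ φ : Form (n i0), φ ∘ₗ π = 0 → lf φ (x i0) / lf φ₁ (x i0) ∈ E := fun φ hφ => by
    rw [hE]
    exact subset_adjoin _ _ (Or.inr (Or.inl ⟨φ, hφ, rfl⟩))
  have hE3 : ∀ φ : Form (n i0), φ ∘ₗ π = φ → lf φ (x i0) / lf φ₂ (x i0) ∈ E := fun φ hφ => by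
    rw [hE]
    exact subset_adjoin _ _ (Or.inr (Or.inr ⟨φ, hφ, rfl⟩))
  have hED : ∀ z ∈ E, D z = 0 := by
    have h3 : E ≤ consts D := by
      rw [hE, adjoin_le_iff]
      rintro _ (⟨b, hb, rfl⟩ | ⟨φ, hφ, rfl⟩ | ⟨φ, hφ, rfl⟩)
      · exact hD1 b hb
      · exact hD2 φ φ₁ hφ hφ₁π
      · exact hD3 φ φ₂ hφ hφ₂π
    exact fun z hz => h3 hz
  have htr : Transcendental E t := by
    refine not_alg_of_der D hED ?_
    rw [ht, hD4 φ₂ φ₁ hφ₂π hφ₁π hφ₁, ← ht]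
    exact ht0
  have htE : t ∈ E⟮t⟯ := mem_adjoin_simple_self E t
  have hEE : ∀ z ∈ E, z ∈ E⟮t⟯ := fun z hz => E⟮t⟯.algebraMap_mem ⟨z, hz⟩
  have hquo : ∀ φ : Form (n i0), ∃ α ∈ E, ∃ β ∈ E, lf φ (x i0) / lf φ₁ (x i0) = α + β * t ∧
      ((φ ∘ₗ π = 0 → β = 0) ∧ (φ ∘ₗ π = φ → α = 0)) := by
    intro φ
    refine ⟨lf (φ - φ ∘ₗ π) (x i0) / lf φ₁ (x i0), hE2 _ ?_, lf (φ ∘ₗ π) (x i0) / lf φ₂ (x i0),
      hE3 _ ?_, ?_, fun h => ?_, fun h => ?_⟩
    · rw [LinearMap.sub_comp, LinearMap.comp_assoc, hππ, sub_self]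
    · rw [LinearMap.comp_assoc, hππ]
    · have h3 : lf φ (x i0) = lf (φ - φ ∘ₗ π) (x i0) + lf (φ ∘ₗ π) (x i0) := by
        rw [← lf_add', sub_add_cancel]
      rw [h3, ht]
      field_simp
    · rw [h]
      simp [lf]
    · rw [h, sub_self]
      simp [lf]
  have hquo' : ∀ φ : Form (n i0), lf φ (x i0) / lf φ₁ (x i0) ∈ E⟮t⟯ := by
    intro φ
    obtain ⟨α, hα, β, hβ, h3, -⟩ := hquo φ
    rw [h3]
    exact add_mem (hEE α hα) (mul_mem (hEE β hβ) htE)
  have haff : ∀ b, aff x b ∈ E⟮t⟯ := by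
    rintro ⟨i, j⟩
    by_cases hi : i = i0
    · subst hi
      have h3 : aff x ⟨i, j⟩ = (lf (LinearMap.proj j.succ) (x i) / lf φ₁ (x i)) /
          (lf (LinearMap.proj 0) (x i) / lf φ₁ (x i)) := by
        rw [lf_proj', lf_proj']
        have := hx0 i
        change x i j.succ / x i 0 = _
        field_simp
      rw [h3]
      exact div_mem (hquo' _) (hquo' _)
    · exact hEE _ (hE1 _ hi)
  have hle : IntermediateField.adjoin ℂ (Set.range (aff x)) ≤ E⟮t⟯.restrictScalars ℂ := by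
    rw [adjoin_le_iff]
    rintro _ ⟨b, rfl⟩
    exact haff b
  have halg : ∀ z : K, IsAlgebraic E⟮t⟯ z := by
    intro z
    have h3 : IsAlgebraic (IntermediateField.adjoin ℂ (Set.range (aff x))) z := by
      have h4 := hbas.isAlgebraic
      exact (IntermediateField.isAlgebraic_adjoin_iff_top.2 h4).isAlgebraic z
    obtain ⟨p, hp0, hp⟩ := h3
    refine ⟨p.map (inclusion hle).toRingHom, ?_, ?_⟩
    · rw [Ne, Polynomial.map_eq_zero]
      exact hp0
    · rw [Polynomial.aeval_def] at hp ⊢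
      rw [Polynomial.eval₂_map]
      exact hp
  refine unir_of_unram hN htr halg fun P hP hPE hPt => ?_
  have hregE : ∀ α ∈ E, α = 0 ∨ 0 ≤ P.ord α := by
    intro α hα
    by_cases h0 : α = 0
    · exact Or.inl h0
    · exact Or.inr (hPE α hα h0).ge
  -- the forms in the other factors
  have hoth : ∀ i, i ≠ i0 → ∀ φ : Form (n i), lf φ (x i) ≠ 0 →
      P.ord (lf φ (x i)) = P.ord (x i 0) := by
    intro i hi φ h0
    have h3 : lf φ (x i) / x i 0 ∈ E := by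
      have h4 : lf φ (x i) / x i 0 = ∑ j, algebraMap ℂ K (φ (Pi.single j 1)) * (x i j / x i 0) := by
        unfold lf
        rw [Finset.sum_div]
        exact Finset.sum_congr rfl fun j _ => mul_div_assoc _ _ _
      rw [h4]
      refine sum_mem fun j _ => mul_mem (E.algebraMap_mem _) ?_
      refine Fin.cases ?_ (fun j => ?_) j
      · rw [div_self (hx0 i)]
        exact one_mem E
      · exact hE1 ⟨i, j⟩ hi
    have h4 := hPE _ h3 (div_ne_zero h0 (hx0 i))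
    rw [P.ord_div h0 (hx0 i)] at h4
    omega
  have key : ∃ z ∈ IntermediateField.adjoin ℂ (Set.range (aff x)), P.ord z = 1 := by
    refine hun P hP (fun i => if i = i0 then P.ord (lf φ₁ (x i0)) else P.ord (x i 0))
      (fun i φ => ?_) (fun i => ?_) (fun i k => ?_)
    · by_cases h0 : lf φ (x i) = 0
      · exact Or.inl h0
      right
      by_cases hi : i = i0
      · subst hi
        rw [if_pos rfl]
        obtain ⟨α, hα, β, hβ, h3, -⟩ := hquo φ
        have h4 : P.Reg (lf φ (x i) / lf φ₁ (x i)) := by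
          rw [h3]
          exact P.reg_add (hregE α hα) (P.reg_mul (hregE β hβ) (Or.inr hPt.ge))
        have h5 := (P.reg_iff (div_ne_zero h0 hg₁)).1 h4
        rw [P.ord_div h0 hg₁] at h5
        omega
      · rw [if_neg hi, hoth i hi φ h0]
    · by_cases hi : i = i0
      · subst hi
        exact ⟨φ₁, hg₁, by rw [if_pos rfl]⟩
      · refine ⟨LinearMap.proj 0, ?_, ?_⟩
        · rw [lf_proj']
          exact hx0 i
        · rw [if_neg hi, lf_proj']
    · by_cases hi : i = i0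
      · subst hi
        rw [if_pos rfl]
        have h0 := hne i (hℓ i k)
        obtain ⟨α, hα, β, hβ, h3, h4, h5⟩ := hquo (ℓ i k)
        have h6 : lf (ℓ i k) (x i) / lf φ₁ (x i) ≠ 0 := div_ne_zero h0 hg₁
        have h7 : P.ord (lf (ℓ i k) (x i) / lf φ₁ (x i)) = 0 := by
          rcases hV k with hk | hk
          · have h8 := h5 (hW₂ _ hk)
            rw [h8, zero_add] at h3
            rw [h3] at h6 ⊢
            rw [P.ord_mul (left_ne_zero_of_mul h6) ht0, hPt, add_zero]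
            exact hPE β hβ (left_ne_zero_of_mul h6)
          · have h8 := h4 (hW₁ _ hk)
            rw [h8, zero_mul, add_zero] at h3
            rw [h3] at h6 ⊢
            exact hPE α hα h6
        rw [P.ord_div h0 hg₁] at h7
        omega
      · rw [if_neg hi]
        exact hoth i hi _ (hne i (hℓ i k))
  obtain ⟨z, hz, hz1⟩ := key
  exact ⟨z, hle hz, hz1⟩

end Pool.Agent.X180.Unr
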