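import Pool.Agent.TH585.SV.Uni
import Pool.Agent.W619.PQ.Genus
import Pool.Agent.W619.PQ.Norm

/-!
A function field of one variable over a field `E`, unramified over `E (t)` except for `t = 0` and
`t = ∞`, is geometrically rational.
-/

set_option autoImplicit false

open FF IntermediateField Pool.Agent.W603.LV Pool.Agent.W619.PQ

namespace Pool.Agent.X180.Unr

variable {K : Type} [Field K] [Algebra ℂ K] (E : IntermediateField ℂ K)

/-- the algebraic closure of `E` in the algebraic closure of `K` -/
noncomputable abbrev Cl : IntermediateField E (AlgebraicClosure K) := algebraicClosure E (AlgebraicClosure K)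

/-- the composite of `K` and the algebraic closure of `E` -/
noncomputable abbrev Rg : IntermediateField (Cl E) (AlgebraicClosure K) :=
  IntermediateField.adjoin (Cl E) (Set.range (algebraMap K (AlgebraicClosure K)))

theorem mem_Cl {z : AlgebraicClosure K} : z ∈ Cl E ↔ IsAlgebraic E z := mem_algebraicClosure_iff

instance : IsAlgClosed (Cl E) :=
  (inferInstance : IsAlgClosure E (algebraicClosure E (AlgebraicClosure K))).isAlgClosed

theorem algMap_mem (a : K) : algebraMap K (AlgebraicClosure K) a ∈ Rg E :=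
  subset_adjoin _ _ ⟨a, rfl⟩

/-- the embedding of `K` -/
noncomputable def em : K →+* Rg E :=
  (algebraMap K (AlgebraicClosure K)).codRestrict (Rg E).toSubfield.toSubring (algMap_mem E)

theorem em_coe (a : K) : ((em E a : Rg E) : AlgebraicClosure K) = algebraMap K _ a := rfl

theorem em_E (a : E) : em E (a : K) = algebraMap (Cl E) (Rg E) (algebraMap E (Cl E) a) := rfl

variable {E}

theorem sigma_Cl (σ : AlgebraicClosure K ≃ₐ[K] AlgebraicClosure K) {z : AlgebraicClosure K}
    (hz : z ∈ Cl E) : σ z ∈ Cl E := by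
  rw [mem_Cl] at hz ⊢
  have h1 : IsAlgebraic E ((σ : AlgebraicClosure K →ₐ[K] AlgebraicClosure K).restrictScalars E z) :=
    hz.algHom _
  exact h1

theorem sigma_Rg (σ : AlgebraicClosure K ≃ₐ[K] AlgebraicClosure K) {z : AlgebraicClosure K}
    (hz : z ∈ Rg E) : σ z ∈ Rg E := by
  induction hz using IntermediateField.adjoin_induction with
  | mem x hx =>
    obtain ⟨a, rfl⟩ := hx
    rw [AlgEquiv.commutes]
    exact algMap_mem E a
  | algebraMap x =>
    have h1 : σ (algebraMap (Cl E) (AlgebraicClosure K) x) ∈ Cl E := sigma_Cl σ x.2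
    exact (Rg E).algebraMap_mem ⟨_, h1⟩
  | add x y _ _ hx hy => rw [map_add]; exact add_mem hx hy
  | inv x _ hx => rw [map_inv₀]; exact inv_mem hx
  | mul x y _ _ hx hy => rw [map_mul]; exact mul_mem hx hy

/-- the action on the composite -/
noncomputable def sR (σ : AlgebraicClosure K ≃ₐ[K] AlgebraicClosure K) : Rg E →+* Rg E :=
  ((σ : AlgebraicClosure K →+* AlgebraicClosure K).comp
    (algebraMap (Rg E) (AlgebraicClosure K))).codRestrict (Rg E).toSubfield.toSubring
    fun z => sigma_Rg σ z.2

theorem sR_coe (σ : AlgebraicClosure K ≃ₐ[K] AlgebraicClosure K) (z : Rg E) :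
    ((sR σ z : Rg E) : AlgebraicClosure K) = σ z := rfl

theorem sR_symm (σ : AlgebraicClosure K ≃ₐ[K] AlgebraicClosure K) (z : Rg E) :
    sR σ (sR σ.symm z) = z := by
  apply Subtype.ext
  rw [sR_coe, sR_coe, AlgEquiv.apply_symm_apply]

theorem sR_symm' (σ : AlgebraicClosure K ≃ₐ[K] AlgebraicClosure K) (z : Rg E) :
    sR σ.symm (sR σ z) = z := by
  apply Subtype.ext
  rw [sR_coe, sR_coe, AlgEquiv.symm_apply_apply]

/-- the action on the constants -/
noncomputable def sC (σ : AlgebraicClosure K ≃ₐ[K] AlgebraicClosure K) (c : Cl E) : Cl E :=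
  ⟨σ c, sigma_Cl σ c.2⟩

theorem sR_const (σ : AlgebraicClosure K ≃ₐ[K] AlgebraicClosure K) (c : Cl E) :
    sR σ (algebraMap (Cl E) (Rg E) c) = algebraMap (Cl E) (Rg E) (sC σ c) := rfl

/-- the image of a place -/
noncomputable def plc (σ : AlgebraicClosure K ≃ₐ[K] AlgebraicClosure K) (Q : Place (Cl E) (Rg E)) :
    Place (Cl E) (Rg E) where
  ord := fun z => Q.ord (sR σ z)
  ord_zero := by rw [map_zero, Q.ord_zero]
  ord_mul := fun {f g} hf hg => by
    rw [map_mul]
    exact Q.ord_mul ((map_ne_zero _).2 hf) ((map_ne_zero _).2 hg)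
  ord_add := fun {f g} hf hg h => by
    rw [map_add]
    refine Q.ord_add ((map_ne_zero _).2 hf) ((map_ne_zero _).2 hg) ?_
    rw [← map_add]
    exact (map_ne_zero _).2 h
  ord_const := fun {c} hc => by
    rw [sR_const]
    refine Q.ord_const fun h => hc ?_
    have h1 : σ (c : AlgebraicClosure K) = 0 := congrArg Subtype.val h
    exact Subtype.ext ((map_eq_zero σ).1 h1)
  surj := by
    obtain ⟨π, h0, h1⟩ := Q.surj
    refine ⟨sR σ.symm π, (map_ne_zero _).2 h0, ?_⟩
    rw [sR_symm, h1]

/-- a conjugate of a derivation -/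
noncomputable def cjD (σ : AlgebraicClosure K ≃ₐ[K] AlgebraicClosure K)
    (D : Derivation (Cl E) (Rg E) (Rg E)) : Derivation (Cl E) (Rg E) (Rg E) where
  toFun := fun z => sR σ.symm (D (sR σ z))
  map_add' := fun x y => by rw [map_add, map_add, map_add]
  map_smul' := fun c x => by
    rw [Algebra.smul_def, map_mul, sR_const, ← Algebra.smul_def, D.map_smul, Algebra.smul_def,
      map_mul, ← sR_const, sR_symm', RingHom.id_apply, Algebra.smul_def]
  map_one_eq_zero' := by
    change sR σ.symm (D (sR σ 1)) = 0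
    rw [map_one, D.map_one_eq_zero, map_zero]
  leibniz' := fun x y => by
    change sR σ.symm (D (sR σ (x * y))) = x • sR σ.symm (D (sR σ y)) + y • sR σ.symm (D (sR σ x))
    rw [map_mul, D.leibniz, map_add]
    simp only [smul_eq_mul, map_mul, sR_symm']

end Pool.Agent.X180.Unr
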