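import Pool.Agent.X180.Unr.Base

/-!
Descent of differentials which are regular at all places.
-/

set_option autoImplicit false

open FF IntermediateField Pool.Agent.W603.LV Pool.Agent.W619.PQ

namespace Pool.Agent.X180.Unr

variable {K : Type} [Field K] [Algebra ℂ K] {E : IntermediateField ℂ K}

theorem mem_adj {z : AlgebraicClosure K} (hz : z ∈ Rg E) :
    z ∈ Algebra.adjoin K (Cl E : Set (AlgebraicClosure K)) := by
  induction hz using IntermediateField.adjoin_induction with
  | mem x hx =>
    obtain ⟨a, rfl⟩ := hx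
    exact Subalgebra.algebraMap_mem _ a
  | algebraMap x => exact Algebra.subset_adjoin x.2
  | add x y _ _ hx hy => exact add_mem hx hy
  | inv x _ hx =>
    have h1 := Subalgebra.inv_mem_of_algebraic
      (A := Algebra.adjoin K (Cl E : Set (AlgebraicClosure K))) (x := ⟨x, hx⟩)
      (Algebra.IsAlgebraic.isAlgebraic (R := K) x)
    exact h1
  | mul x y _ _ hx hy => exact mul_mem hx hy

theorem exists_sum (z : Rg E) : ∃ (n : ℕ) (b : Fin n → K) (c : Fin n → Cl E),
    z = ∑ i, em E (b i) * algebraMap (Cl E) (Rg E) (c i) := by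
  have h1 := mem_adj z.2
  rw [← Subalgebra.mem_toSubmodule, Algebra.adjoin_eq_span] at h1
  have h2 : (Submonoid.closure (Cl E : Set (AlgebraicClosure K)) : Set (AlgebraicClosure K)) =
      (Cl E : Set (AlgebraicClosure K)) := by
    have := Submonoid.closure_eq (Cl E).toSubfield.toSubring.toSubmonoid
    exact congrArg (fun S : Submonoid (AlgebraicClosure K) => (S : Set (AlgebraicClosure K))) this
  rw [h2, Submodule.mem_span_set'] at h1
  obtain ⟨n, f, g, h3⟩ := h1
  refine ⟨n, f, fun i => ⟨(g i : AlgebraicClosure K), (g i).2⟩, ?_⟩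
  apply Subtype.ext
  rw [← h3]
  push_cast
  refine Finset.sum_congr rfl fun i _ => ?_
  rw [Algebra.smul_def]
  rfl

variable [IsFF (Cl E) (Rg E)]

/-- the differential with the value `f` at the derivation `D` is regular -/
def Good (D : Derivation (Cl E) (Rg E) (Rg E)) (f : Rg E) : Prop :=
  ∀ Q : Place (Cl E) (Rg E), Ge Q (vo Q D) f

omit [IsFF (Cl E) (Rg E)] in
theorem Good.sub {D : Derivation (Cl E) (Rg E) (Rg E)} {f g : Rg E} (hf : Good D f)
    (hg : Good D g) : Good D (f - g) := fun Q => (hf Q).sub (hg Q)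

omit [IsFF (Cl E) (Rg E)] in
theorem Good.smul {D : Derivation (Cl E) (Rg E) (Rg E)} {f : Rg E} (hf : Good D f) (c : Cl E) :
    Good D (f * algebraMap (Cl E) (Rg E) c) := fun Q => by
  have h1 := (hf Q).mul (Ge.const (P := Q) c)
  rwa [add_zero] at h1

theorem charZero_Cl : CharZero (Cl E) :=
  charZero_of_injective_algebraMap (algebraMap ℂ (Cl E)).injective

theorem Good.conj {D : Derivation (Cl E) (Rg E) (Rg E)} (hD : D ≠ 0) {t : K}
    (ht : Transcendental (Cl E) (em E t)) (hDt : D (em E t) = em E t)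
    {f : Rg E} (hf : Good D f) (σ : AlgebraicClosure K ≃ₐ[K] AlgebraicClosure K) :
    Good D (sR σ f) := by
  have := charZero_Cl (E := E)
  intro Q
  have hσt : ∀ (τ : AlgebraicClosure K ≃ₐ[K] AlgebraicClosure K) (a : K),
      sR τ (em E a) = em E a := by
    intro τ a
    apply Subtype.ext
    rw [sR_coe, em_coe, AlgEquiv.commutes]
  have hc : ∀ z, D (sR σ z) = sR σ (D z) := by
    intro z
    have h1 : cjD σ D (em E t) = D (em E t) := by
      change sR σ.symm (D (sR σ (em E t))) = _
      rw [hσt, hDt, hσt]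
    have h2 : sR σ.symm (D (sR σ z)) = D z := der_ext ht h1 z
    rw [← h2, sR_symm]
  have h1 := hf (plc σ Q)
  have h2 : vo (plc σ Q) D = vo Q D := by
    have h3 : (plc σ Q).ord (unif (plc σ Q)) = 1 := ord_unif _
    have h4 : Q.ord (sR σ (unif (plc σ Q))) = 1 := h3
    rw [← vo_eq Q h4 hD, hc]
    rfl
  rw [h2] at h1
  rcases h1 with h1 | h1
  · left
    rw [h1, map_zero]
  · right
    exact h1

theorem descend {D : Derivation (Cl E) (Rg E) (Rg E)} (hD : D ≠ 0) {t : K}
    (ht : Transcendental (Cl E) (em E t)) (hDt : D (em E t) = em E t)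
    {f : Rg E} (hf0 : f ≠ 0) (hf : Good D f) : ∃ a : K, a ≠ 0 ∧ Good D (em E a) := by
  classical
  have hch : CharZero K := charZero_of_injective_algebraMap (algebraMap ℂ K).injective
  have hex : ∃ n : ℕ, ∃ (f : Rg E) (b : Fin n → K) (c : Fin n → Cl E), f ≠ 0 ∧ Good D f ∧
      f = ∑ i, em E (b i) * algebraMap (Cl E) (Rg E) (c i) := by
    obtain ⟨n, b, c, h⟩ := exists_sum f
    exact ⟨n, f, b, c, hf0, hf, h⟩
  obtain ⟨f, b, c, h0, h1, h2⟩ := Nat.find_spec hex
  have hmin := fun m hm => Nat.find_min hex (m := m) hm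
  generalize hn : Nat.find hex = n at b c h2 hmin
  cases n with
  | zero => exact absurd (by rw [h2]; simp) h0
  | succ n =>
    have hc0 : c 0 ≠ 0 := by
      intro hc
      refine hmin n (Nat.lt_succ_self n) ⟨f, fun i => b i.succ, fun i => c i.succ, h0, h1, ?_⟩
      rw [h2, Fin.sum_univ_succ, hc, map_zero, mul_zero, zero_add]
    obtain ⟨g, hg⟩ : ∃ g : Rg E, g = f * algebraMap (Cl E) (Rg E) (c 0)⁻¹ := ⟨_, rfl⟩
    have hg0 : g ≠ 0 := by
      rw [hg]
      exact mul_ne_zero h0 ((map_ne_zero _).2 (inv_ne_zero hc0))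
    have hgG : Good D g := by
      rw [hg]
      exact h1.smul _
    have hgs : g = em E (b 0) + ∑ i : Fin n, em E (b i.succ) *
        algebraMap (Cl E) (Rg E) (c i.succ * (c 0)⁻¹) := by
      rw [hg, h2, Finset.sum_mul, Fin.sum_univ_succ]
      congr 1
      · rw [mul_assoc, ← map_mul, mul_inv_cancel₀ hc0, map_one, mul_one]
      · refine Finset.sum_congr rfl fun i _ => ?_
        rw [mul_assoc, ← map_mul]
    have hfix : ∀ σ : AlgebraicClosure K ≃ₐ[K] AlgebraicClosure K, sR σ g = g := by
      intro σ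
      by_contra hne
      refine hmin n (Nat.lt_succ_self n) ⟨sR σ g - g, fun i => b i.succ,
        fun i => sC σ (c i.succ * (c 0)⁻¹) - c i.succ * (c 0)⁻¹, sub_ne_zero.2 hne,
        (hgG.conj hD ht hDt σ).sub hgG, ?_⟩
      have hσt : ∀ (a : K), sR σ (em E a) = em E a := by
        intro a
        apply Subtype.ext
        rw [sR_coe, em_coe, AlgEquiv.commutes]
      rw [hgs, map_add, hσt, map_sum, add_sub_add_left_eq_sub, ← Finset.sum_sub_distrib]
      refine Finset.sum_congr rfl fun i _ => ?_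
      rw [map_mul, hσt, sR_const, ← mul_sub, ← map_sub]
    have hmem : (g : AlgebraicClosure K) ∈ (⊥ : IntermediateField K (AlgebraicClosure K)) := by
      rw [InfiniteGalois.mem_bot_iff_fixed]
      intro σ
      exact congrArg Subtype.val (hfix σ)
    obtain ⟨a, ha⟩ := IntermediateField.mem_bot.1 hmem
    have hga : g = em E a := Subtype.ext ha.symm
    refine ⟨a, ?_, hga ▸ hgG⟩
    rintro rfl
    exact hg0 (by rw [hga, map_zero])

end Pool.Agent.X180.Unr
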