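import Pool.Agent.X180.Unr.Rat
import Pool.Agent.W619.PQ.Rat

/-!
A function field of one variable over a field `E`, unramified over `E (t)` except for `t = 0` and
`t = ∞`, is geometrically rational.
-/

set_option autoImplicit false

open FF IntermediateField Pool.Agent.W603.LV Pool.Agent.W619.PQ

namespace Pool.Agent.X180.Unr

variable {K : Type} [Field K] [Algebra ℂ K] {E : IntermediateField ℂ K}

/-- the orders of the elements of `E (t)` at a place which is trivial on `E` -/
theorem dvd_ord {t : K} (P : Place ℂ K) (hE : ∀ z ∈ E, z ≠ 0 → P.ord z = 0) (ht0 : t ≠ 0)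
    (ht : P.ord t = 0) {g : Polynomial E} (hg : Irreducible g) (hgt : 0 < P.ord (Polynomial.aeval t g))
    {z : K} (hz : z ∈ E⟮t⟯) : P.ord (Polynomial.aeval t g) ∣ P.ord z := by
  classical
  have hconst : ∀ c : E, P.Reg (algebraMap E K c) := by
    intro c
    by_cases hc : (algebraMap E K c) = 0
    · exact Or.inl hc
    · exact Or.inr (hE _ c.2 hc).ge
  have hreg : ∀ A : Polynomial E, P.Reg (Polynomial.aeval t A) := by
    intro A
    induction A using Polynomial.induction_on' with
    | add p q hp hq =>
      rw [map_add]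
      exact P.reg_add hp hq
    | monomial n a =>
      rw [Polynomial.aeval_monomial]
      refine P.reg_mul (hconst a) (Or.inr ?_)
      rw [P.ord_pow, ht, mul_zero]
  have hpoly : ∀ (N : ℕ) (A : Polynomial E), A.natDegree ≤ N → Polynomial.aeval t A ≠ 0 →
      P.ord (Polynomial.aeval t g) ∣ P.ord (Polynomial.aeval t A) := by
    intro N
    induction N with
    | zero =>
      intro A hA hA0
      rw [Polynomial.eq_C_of_natDegree_le_zero hA, Polynomial.aeval_C] at hA0 ⊢
      have h0 := hE (algebraMap E K (A.coeff 0)) (A.coeff 0).2 hA0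
      rw [h0]
      exact dvd_zero _
    | succ N ih =>
      intro A hA hA0
      by_cases hdvd : g ∣ A
      · obtain ⟨B, rfl⟩ := hdvd
        rw [map_mul] at hA0 ⊢
        have h1 := left_ne_zero_of_mul hA0
        have h2 := right_ne_zero_of_mul hA0
        have hB0 : B ≠ 0 := by
          rintro rfl
          exact h2 (map_zero _)
        rw [P.ord_mul h1 h2]
        refine dvd_add dvd_rfl (ih B ?_ h2)
        rw [Polynomial.natDegree_mul hg.ne_zero hB0] at hA
        have := hg.natDegree_pos
        omega
      · have hco : IsCoprime g A := (hg.coprime_iff_not_dvd).2 hdvd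
        obtain ⟨u, v, huv⟩ := hco
        have h1 := congrArg (Polynomial.aeval t) huv
        rw [map_add, map_mul, map_mul, map_one] at h1
        have h2 : P.ord (Polynomial.aeval t A) = 0 := by
          have h3 := (hreg A).resolve_left hA0
          by_contra hne
          have h4 : 0 < P.ord (Polynomial.aeval t A) := lt_of_le_of_ne h3 (Ne.symm hne)
          have h5 : Ge P 1 (Polynomial.aeval t u * Polynomial.aeval t g) := by
            have := Ge.mul (P := P) (N := 0) (M := 1) (hreg u) (Or.inr hgt)
            simpa using this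
          have h6 : Ge P 1 (Polynomial.aeval t v * Polynomial.aeval t A) := by
            have := Ge.mul (P := P) (N := 0) (M := 1) (hreg v) (Or.inr h4)
            simpa using this
          have h7 := h5.add h6
          rw [h1] at h7
          rcases h7 with h7 | h7
          · exact one_ne_zero h7
          · rw [P.ord_one] at h7
            omega
        rw [h2]
        exact dvd_zero _
  by_cases hz0 : z = 0
  · rw [hz0, P.ord_zero]
    exact dvd_zero _
  rw [IntermediateField.mem_adjoin_simple_iff] at hz
  obtain ⟨r, s, hrs⟩ := hz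
  have hs : Polynomial.aeval t s ≠ 0 := by
    intro h
    rw [h, div_zero] at hrs
    exact hz0 hrs
  have hr : Polynomial.aeval t r ≠ 0 := by
    intro h
    rw [h, zero_div] at hrs
    exact hz0 hrs
  rw [hrs, P.ord_div hr hs]
  exact dvd_sub (hpoly _ r le_rfl hr) (hpoly _ s le_rfl hs)

theorem aeval_em {t : K} (g : Polynomial E) : em E (Polynomial.aeval t g) =
    Polynomial.aeval (em E t) (g.map (algebraMap E (Cl E))) := by
  rw [Polynomial.aeval_map_algebraMap, Polynomial.aeval_def, Polynomial.hom_eval₂,
    Polynomial.aeval_def]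
  rfl

/-- **Geometric rationality.** -/
theorem geom_rational [Algebra.EssFiniteType ℂ K] {t : K} (ht : Transcendental E t)
    (halg : ∀ z : K, IsAlgebraic E⟮t⟯ z)
    (hun : ∀ P : Place ℂ K, (∀ z ∈ E, z ≠ 0 → P.ord z = 0) → P.ord t = 0 →
      ∃ z ∈ E⟮t⟯, P.ord z = 1) : ∃ w : Rg E, (Cl E)⟮w⟯ = ⊤ := by
  classical
  have hch : CharZero (Cl E) := charZero_of_injective_algebraMap (algebraMap ℂ (Cl E)).injective
  have hFF : IsFF (Cl E) (Rg E) := isFF ht halg
  have htr := trans_em ht
  have ht0 : t ≠ 0 := by
    rintro rfl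
    exact ht isAlgebraic_zero
  have hT0 : em E t ≠ 0 := (map_ne_zero _).2 ht0
  obtain ⟨D0, -, hD0⟩ := exists_ddx htr
  obtain ⟨D, hDdef⟩ : ∃ D : Derivation (Cl E) (Rg E) (Rg E), D = em E t • D0 := ⟨_, rfl⟩
  have hDT : D (em E t) = em E t := by
    rw [hDdef, Derivation.smul_apply, hD0, smul_eq_mul, mul_one]
  have hD : D ≠ 0 := by
    rintro rfl
    exact hT0 hDT.symm
  by_contra hrat
  obtain ⟨f, hf0, hf⟩ := exists_regular hrat hD
  obtain ⟨a, ha0, ha⟩ := descend hD htr hDT hf0 fun Q => Or.inr (hf Q)
  have hA0 : em E a ≠ 0 := (map_ne_zero _).2 ha0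
  have hord : ∀ Q : Place (Cl E) (Rg E), vo Q D ≤ Q.ord (em E a) := fun Q =>
    (ha Q).resolve_left hA0
  have hone : ∀ Q : Place (Cl E) (Rg E), Q.ord (em E t) ≠ 0 → vo Q D = 1 := by
    intro Q hQ
    have h1 := (ord_der Q hD hQ).2
    rw [hDT] at h1
    omega
  have hnn : ∀ Q : Place (Cl E) (Rg E), 0 ≤ Q.ord (em E a) := by
    intro Q
    by_cases hQ : Q.ord (em E t) = 0
    swap
    · have h1 := hord Q
      rw [hone Q hQ] at h1
      omega
    obtain ⟨c, hc⟩ := exists_const Q (f := em E t) (Or.inr hQ.ge)
    have htc : em E t - algebraMap (Cl E) (Rg E) c ≠ 0 := by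
      intro h
      apply htr
      rw [sub_eq_zero.1 h]
      exact isAlgebraic_algebraMap c
    have hc1 := hc.resolve_left htc
    obtain ⟨e, he⟩ : ∃ e, e = Q.ord (em E t - algebraMap (Cl E) (Rg E) c) := ⟨_, rfl⟩
    rw [← he] at hc1
    have hvo : vo Q D = 1 - e := by
      have h1 := (ord_der Q hD (f := em E t - algebraMap (Cl E) (Rg E) c) (by omega)).2
      rw [map_sub, D.map_algebraMap, sub_zero, hDT, hQ, ← he] at h1
      omega
    -- the minimal polynomial of `c`
    have hcalg : IsAlgebraic E c := by
      have h1 := (mem_Cl E).1 c.2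
      exact (isAlgebraic_algebraMap_iff (algebraMap (Cl E) (AlgebraicClosure K)).injective).1 h1
    have hcint := hcalg.isIntegral
    have hirr := minpoly.irreducible hcint
    obtain ⟨g, hg⟩ : ∃ g, g = minpoly E c := ⟨_, rfl⟩
    rw [← hg] at hirr
    obtain ⟨h, hh⟩ : ∃ h, g.map (algebraMap E (Cl E)) =
        (Polynomial.X - Polynomial.C c) * h := by
      rw [← dvd_def, Polynomial.dvd_iff_isRoot, Polynomial.IsRoot, Polynomial.eval_map,
        ← Polynomial.aeval_def, hg, minpoly.aeval]
    have hchE : CharZero E := charZero_of_injective_algebraMap (algebraMap ℂ E).injective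
    have hsep : g.Separable := hirr.separable
    have hhc : h.eval c ≠ 0 := by
      intro h0
      have h1 : (g.map (algebraMap E (Cl E))).Separable := hsep.map
      rw [hh] at h1
      have h2 : (Polynomial.X - Polynomial.C c) ∣ h := Polynomial.dvd_iff_isRoot.2 h0
      have h3 : IsCoprime (Polynomial.X - Polynomial.C c) h := h1.isCoprime
      have h4 := h3.isUnit_of_dvd' dvd_rfl h2
      exact (Polynomial.irreducible_X_sub_C c).not_isUnit h4
    have hordh : Polynomial.aeval (em E t) h ≠ 0 ∧ Q.ord (Polynomial.aeval (em E t) h) = 0 := by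
      have h1 : Ge Q 1 (Polynomial.aeval (em E t) h - algebraMap (Cl E) (Rg E) (h.eval c)) := by
        obtain ⟨q, hq⟩ : (Polynomial.X - Polynomial.C c) ∣ h - Polynomial.C (h.eval c) := by
          rw [Polynomial.dvd_iff_isRoot]
          simp
        have h2 := congrArg (Polynomial.aeval (em E t)) hq
        rw [map_sub, Polynomial.aeval_C, map_mul, map_sub, Polynomial.aeval_X,
          Polynomial.aeval_C] at h2
        rw [h2]
        have h3 : Ge Q 0 (Polynomial.aeval (em E t) q) := by
          rw [Polynomial.aeval_eq_sum_range]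
          refine Ge.sum _ _ fun i _ => ?_
          rw [Algebra.smul_def]
          have h4 := (Ge.const (P := Q) (q.coeff i)).mul (Ge.pow (P := Q) (N := 0) (f := em E t)
            (Or.inr hQ.ge) i)
          simpa using h4
        have h4 := Ge.mul (P := Q) (N := 1) (M := 0) hc h3
        simpa using h4
      have hcc : algebraMap (Cl E) (Rg E) (h.eval c) ≠ 0 := (map_ne_zero _).2 hhc
      rcases h1 with h1 | h1
      · rw [sub_eq_zero.1 h1]
        exact ⟨hcc, Q.ord_const hhc⟩
      · by_cases h5 : Polynomial.aeval (em E t) h - algebraMap (Cl E) (Rg E) (h.eval c) = 0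
        · rw [sub_eq_zero.1 h5]
          exact ⟨hcc, Q.ord_const hhc⟩
        · have h6 := Q.ord_add_eq (f := algebraMap (Cl E) (Rg E) (h.eval c))
            (g := Polynomial.aeval (em E t) h - algebraMap (Cl E) (Rg E) (h.eval c)) hcc h5
            (by rw [Q.ord_const hhc]; omega)
          rw [add_sub_cancel, Q.ord_const hhc] at h6
          exact h6
    have hgord : Q.ord (em E (Polynomial.aeval t g)) = e := by
      rw [aeval_em, hh, map_mul, map_sub, Polynomial.aeval_X, Polynomial.aeval_C,
        Q.ord_mul htc hordh.1, hordh.2, ← he, add_zero]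
    -- the restriction
    obtain ⟨P, ε, hε, hP⟩ := exists_restrict (k := ℂ) (em E) Q (fun c hc => by
      have h1 : em E (algebraMap ℂ K c) = algebraMap (Cl E) (Rg E)
        (algebraMap E (Cl E) (algebraMap ℂ E c)) := em_E E (algebraMap ℂ E c)
      rw [h1]
      exact Q.ord_const ((map_ne_zero _).2 ((map_ne_zero _).2 hc)))
      ⟨_, by rw [hgord]; omega⟩
    have hPE : ∀ z ∈ E, z ≠ 0 → P.ord z = 0 := by
      intro z hz hz0
      have h1 := hP z
      have h2 : em E z = algebraMap (Cl E) (Rg E) (algebraMap E (Cl E) ⟨z, hz⟩) := em_E E ⟨z, hz⟩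
      rw [h2, Q.ord_const] at h1
      · rcases mul_eq_zero.1 h1.symm with h3 | h3
        · omega
        · exact h3
      · rw [Ne, map_eq_zero]
        intro h3
        exact hz0 (congrArg Subtype.val h3)
    have hPt : P.ord t = 0 := by
      have h1 := hP t
      rw [hQ] at h1
      rcases mul_eq_zero.1 h1.symm with h3 | h3
      · omega
      · exact h3
    have hPg : 0 < P.ord (Polynomial.aeval t g) := by
      have h1 := hP (Polynomial.aeval t g)
      rw [hgord] at h1
      by_contra hneg
      have : ε * P.ord (Polynomial.aeval t g) ≤ 0 :=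
        mul_nonpos_of_nonneg_of_nonpos hε.le (not_lt.1 hneg)
      omega
    obtain ⟨z, hz, hz1⟩ := hun P hPE hPt
    have h1 := dvd_ord P hPE ht0 hPt hirr hPg hz
    rw [hz1] at h1
    have h2 : P.ord (Polynomial.aeval t g) = 1 := by
      have := Int.le_of_dvd one_pos h1
      omega
    have h3 : e = ε := by
      rw [← hgord, hP, h2, mul_one]
    have h4 := hord Q
    rw [hvo, hP a, h3] at h4
    rw [hP a]
    have h5 : 0 ≤ P.ord a := by
      by_contra hneg
      have h6 : P.ord a ≤ -1 := by omega
      have h7 : ε * P.ord a ≤ ε * (-1) := mul_le_mul_of_nonneg_left h6 hε.le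
      omega
    exact mul_nonneg hε.le h5
  -- a zero
  obtain ⟨S, hS, -, hS2⟩ := zeros (k := Cl E) (K := Rg E) htr
  have hfin : FiniteDimensional (Cl E)⟮em E t⟯ (Rg E) := IsFF.finite htr
  have hSne : S.Nonempty := by
    rw [Finset.nonempty_iff_ne_empty]
    rintro rfl
    rw [Finset.sum_empty] at hS2
    have := Module.finrank_pos (R := (Cl E)⟮em E t⟯) (M := Rg E)
    omega
  obtain ⟨Q, hQ⟩ := hSne
  have hQ1 := (hS Q).1 hQ
  have hQa : 1 ≤ Q.ord (em E a) := by
    have h1 := hord Q
    rwa [hone Q (by omega)] at h1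
  have htra : Transcendental (Cl E) (em E a) := Q.transcendental_of_ord_ne (by omega)
  obtain ⟨S', hS', hS2'⟩ := poles (k := Cl E) (K := Rg E) htra
  have hfin' : FiniteDimensional (Cl E)⟮em E a⟯ (Rg E) := IsFF.finite htra
  have hSne' : S'.Nonempty := by
    rw [Finset.nonempty_iff_ne_empty]
    rintro rfl
    rw [Finset.sum_empty] at hS2'
    have := Module.finrank_pos (R := (Cl E)⟮em E a⟯) (M := Rg E)
    omega
  obtain ⟨Q', hQ'⟩ := hSne'
  have h1 := (hS' Q').1 hQ'
  have h2 := hnn Q'
  omega

end Pool.Agent.X180.Unr
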