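import Pool.Agent.X180.Unr.Desc

/-!
A function field of one variable over a field `E`, unramified over `E (t)` except for `t = 0` and
`t = ∞`, is geometrically rational.
-/

set_option autoImplicit false

open FF IntermediateField Pool.Agent.W603.LV Pool.Agent.W619.PQ

namespace Pool.Agent.X180.Unr

/-- the restriction of a place to a subfield -/
theorem exists_restrict {k k' K R : Type} [Field k] [Field k'] [Field K] [Field R] [Algebra k K]
    [Algebra k' R] (φ : K →+* R) (Q : Place k' R)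
    (hk : ∀ c : k, c ≠ 0 → Q.ord (φ (algebraMap k K c)) = 0) (hne : ∃ z, Q.ord (φ z) ≠ 0) :
    ∃ (P : Place k K) (ε : ℤ), 0 < ε ∧ ∀ z, Q.ord (φ z) = ε * P.ord z := by
  classical
  let H : AddSubgroup ℤ :=
    { carrier := {n | ∃ z, z ≠ 0 ∧ Q.ord (φ z) = n}
      zero_mem' := ⟨1, one_ne_zero, by rw [map_one, Q.ord_one]⟩
      add_mem' := by
        rintro a b ⟨z, hz, rfl⟩ ⟨w, hw, rfl⟩
        refine ⟨z * w, mul_ne_zero hz hw, ?_⟩
        rw [map_mul, Q.ord_mul ((map_ne_zero _).2 hz) ((map_ne_zero _).2 hw)]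
      neg_mem' := by
        rintro a ⟨z, hz, rfl⟩
        exact ⟨z⁻¹, inv_ne_zero hz, by rw [map_inv₀, Q.ord_inv]⟩ }
  obtain ⟨a, ha⟩ := Int.subgroup_cyclic H
  have hmem : ∀ z, z ≠ 0 → ∃ m : ℤ, Q.ord (φ z) = m * |a| := by
    intro z hz
    have h1 : Q.ord (φ z) ∈ H := ⟨z, hz, rfl⟩
    rw [ha, AddSubgroup.mem_closure_singleton] at h1
    obtain ⟨m, hm⟩ := h1
    rcases abs_choice a with h | h
    · exact ⟨m, by rw [h, ← hm, smul_eq_mul]⟩
    · exact ⟨-m, by rw [h, ← hm, smul_eq_mul]; ring⟩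
  have ha0 : a ≠ 0 := by
    rintro rfl
    obtain ⟨z, hz⟩ := hne
    have hz0 : z ≠ 0 := by
      rintro rfl
      rw [map_zero, Q.ord_zero] at hz
      exact hz rfl
    obtain ⟨m, hm⟩ := hmem z hz0
    rw [abs_zero, mul_zero] at hm
    exact hz hm
  have hpos : 0 < |a| := abs_pos.2 ha0
  have hdiv : ∀ z, Q.ord (φ z) = |a| * (Q.ord (φ z) / |a|) := by
    intro z
    by_cases hz : z = 0
    · rw [hz, map_zero, Q.ord_zero, Int.zero_ediv, mul_zero]
    · obtain ⟨m, hm⟩ := hmem z hz
      rw [hm, Int.mul_ediv_cancel _ hpos.ne', mul_comm]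
  refine ⟨⟨fun z => Q.ord (φ z) / |a|, ?_, ?_, ?_, ?_, ?_⟩, |a|, hpos, hdiv⟩
  · change Q.ord (φ 0) / |a| = 0
    rw [map_zero, Q.ord_zero, Int.zero_ediv]
  · intro f g hf hg
    have h1 := hdiv (f * g)
    rw [map_mul, Q.ord_mul ((map_ne_zero _).2 hf) ((map_ne_zero _).2 hg), hdiv f, hdiv g,
      ← mul_add] at h1
    have h2 := mul_left_cancel₀ hpos.ne' h1
    rw [map_mul, Q.ord_mul ((map_ne_zero _).2 hf) ((map_ne_zero _).2 hg), hdiv f, hdiv g, ← mul_add,
      Int.mul_ediv_cancel_left _ hpos.ne']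
    rw [Int.mul_ediv_cancel_left _ hpos.ne', Int.mul_ediv_cancel_left _ hpos.ne']
  · intro f g hf hg hfg
    have h1 := Q.ord_add ((map_ne_zero φ).2 hf) ((map_ne_zero φ).2 hg)
      (by rw [← map_add]; exact (map_ne_zero φ).2 hfg)
    rw [← map_add] at h1
    rcases min_le_iff.1 h1 with h2 | h2
    · exact min_le_iff.2 (Or.inl (Int.ediv_le_ediv hpos h2))
    · exact min_le_iff.2 (Or.inr (Int.ediv_le_ediv hpos h2))
  · intro c hc
    change Q.ord (φ (algebraMap k K c)) / |a| = 0
    rw [hk c hc, Int.zero_ediv]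
  · have h1 : a ∈ H := by
      rw [ha]
      exact AddSubgroup.subset_closure (Set.mem_singleton a)
    obtain ⟨z, hz, h2⟩ := h1
    rcases abs_choice a with h | h
    · refine ⟨z, hz, ?_⟩
      change Q.ord (φ z) / |a| = 1
      rw [h2, h, Int.ediv_self ha0]
    · refine ⟨z⁻¹, inv_ne_zero hz, ?_⟩
      change Q.ord (φ z⁻¹) / |a| = 1
      rw [map_inv₀, Q.ord_inv, h2, h, Int.ediv_self (neg_ne_zero.2 ha0)]

variable {K : Type} [Field K] [Algebra ℂ K] {E : IntermediateField ℂ K}

theorem trans_em {t : K} (ht : Transcendental E t) : Transcendental (Cl E) (em E t) := by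
  intro h
  apply ht
  have h1 : IsAlgebraic (Cl E) ((em E t : Rg E) : AlgebraicClosure K) := h.algebraMap
  have h2 : IsAlgebraic E ((em E t : Rg E) : AlgebraicClosure K) := by
    have h3 : (algebraMap K (AlgebraicClosure K) t) ∈ Cl E := by
      have := IsAlgebraic.restrictScalars E h1
      exact mem_Cl E |>.2 this
    exact (mem_Cl E).1 h3
  rw [em_coe] at h2
  exact (isAlgebraic_algebraMap_iff (algebraMap K (AlgebraicClosure K)).injective).1 h2

theorem em_adjoin {t : K} {x : K} (hx : x ∈ E⟮t⟯) : em E x ∈ (Cl E)⟮em E t⟯ := by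
  induction hx using IntermediateField.adjoin_induction with
  | mem x hx =>
    rw [Set.mem_singleton_iff] at hx
    rw [hx]
    exact mem_adjoin_simple_self _ _
  | algebraMap x =>
    have h1 : em E (algebraMap E K x) = algebraMap (Cl E) (Rg E) (algebraMap E (Cl E) x) := em_E E x
    rw [h1]
    exact IntermediateField.algebraMap_mem _ _
  | add x y _ _ hx hy => rw [map_add]; exact add_mem hx hy
  | inv x _ hx => rw [map_inv₀]; exact inv_mem hx
  | mul x y _ _ hx hy => rw [map_mul]; exact mul_mem hx hy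

theorem isFF [Algebra.EssFiniteType ℂ K] {t : K} (ht : Transcendental E t)
    (halg : ∀ z : K, IsAlgebraic E⟮t⟯ z) : IsFF (Cl E) (Rg E) := by
  classical
  refine IsFF.of_finite (trans_em ht) ?_
  obtain ⟨s, hs⟩ := IntermediateField.fg_top ℂ K
  let φ : E⟮t⟯ →+* (Cl E)⟮em E t⟯ :=
    ((em E).comp (algebraMap E⟮t⟯ K)).codRestrict ((Cl E)⟮em E t⟯).toSubfield.toSubring
      fun x => em_adjoin x.2
  have hint : ∀ a : K, IsIntegral (Cl E)⟮em E t⟯ (em E a) := fun a =>
    IsIntegral.map_of_comp_eq φ (em E) (by ext; rfl) (halg a).isIntegral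
  have hfd : FiniteDimensional (Cl E)⟮em E t⟯ (IntermediateField.adjoin (Cl E)⟮em E t⟯
      ((s.image (em E) : Finset (Rg E)) : Set (Rg E))) := by
    refine IntermediateField.finiteDimensional_adjoin fun x hx => ?_
    rw [Finset.mem_coe, Finset.mem_image] at hx
    obtain ⟨a, _, rfl⟩ := hx
    exact hint a
  have hmem : ∀ a : K, em E a ∈ IntermediateField.adjoin (Cl E)⟮em E t⟯
      ((s.image (em E) : Finset (Rg E)) : Set (Rg E)) := by
    intro a
    have ha : a ∈ IntermediateField.adjoin ℂ (s : Set K) := by rw [hs]; trivial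
    induction ha using IntermediateField.adjoin_induction with
    | mem x hx =>
      refine subset_adjoin _ _ ?_
      rw [Finset.coe_image]
      exact ⟨x, hx, rfl⟩
    | algebraMap x =>
      have h1 : em E (algebraMap ℂ K x) = algebraMap (Cl E)⟮em E t⟯ (Rg E)
          (algebraMap (Cl E) _ (algebraMap E (Cl E) (algebraMap ℂ E x))) := em_E E (algebraMap ℂ E x)
      rw [h1]
      exact IntermediateField.algebraMap_mem _ _
    | add x y _ _ hx hy => rw [map_add]; exact add_mem hx hy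
    | inv x _ hx => rw [map_inv₀]; exact inv_mem hx
    | mul x y _ _ hx hy => rw [map_mul]; exact mul_mem hx hy
  have htop : (⊤ : IntermediateField (Cl E)⟮em E t⟯ (Rg E)) = IntermediateField.adjoin
      (Cl E)⟮em E t⟯ ((s.image (em E) : Finset (Rg E)) : Set (Rg E)) := by
    refine le_antisymm (fun z _ => ?_) le_top
    obtain ⟨n, b, c, hz⟩ := exists_sum z
    rw [hz]
    refine sum_mem fun i _ => mul_mem (hmem _) ?_
    have h1 : algebraMap (Cl E) (Rg E) (c i) = algebraMap (Cl E)⟮em E t⟯ (Rg E)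
      (algebraMap (Cl E) _ (c i)) := rfl
    rw [h1]
    exact IntermediateField.algebraMap_mem _ _
  rw [← htop] at hfd
  exact (IntermediateField.topEquiv (F := (Cl E)⟮em E t⟯) (E := Rg E)).toLinearEquiv.finiteDimensional

end Pool.Agent.X180.Unr
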