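import Pool.Agent.X180.Unr.Fin
import Pool.Agent.W602.GT.Der
import Pool.Agent.W602.GT.Defs
import Pool.Agent.W619.PQ.Defs

/-!
Uniruledness of varieties which are unramified over `B × ℙ¹` except for the sections `0` and `∞`.
-/

set_option autoImplicit false

open FF IntermediateField Pool.Agent.W603.LV Pool.Agent.W619.PQ

namespace Pool.Agent.X180.Unr

variable {K : Type} [Field K] [Algebra ℂ K] {E : IntermediateField ℂ K}

theorem trdeg_E {t : K} (ht : Transcendental E t) (halg : ∀ z : K, IsAlgebraic E⟮t⟯ z) {N : ℕ}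
    (hK : Algebra.trdeg ℂ K = N) : Algebra.trdeg ℂ E + 1 = N := by
  have h1 : Algebra.trdeg E K = 1 := by
    have h2 : IsTranscendenceBasis E (fun _ : Unit => t) := by
      rw [isTranscendenceBasis_iff_algebraicIndependent_isAlgebraic]
      refine ⟨?_, ⟨fun z => ?_⟩⟩
      · rw [algebraicIndependent_unique_type_iff]
        exact ht
      · have h3 : IsAlgebraic (Algebra.adjoin E (Set.range fun _ : Unit => t)) z := by
          rw [Set.range_const]
          exact (IntermediateField.isAlgebraic_adjoin_iff_top.1 ⟨halg⟩).isAlgebraic z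
        exact h3
    have h3 := h2.cardinalMk_eq_trdeg
    rw [← h3]
    simp
  rw [← h1, _root_.trdeg_add_eq ℂ E, hK]

/-- **Uniruledness.** -/
theorem unir_of_unram [Algebra.EssFiniteType ℂ K] {N : ℕ} (hK : Algebra.trdeg ℂ K = N) {t : K}
    (ht : Transcendental E t) (halg : ∀ z : K, IsAlgebraic E⟮t⟯ z)
    (hun : ∀ P : Place ℂ K, Pool.Agent.W602.GT.Divisorial N P → (∀ z ∈ E, z ≠ 0 → P.ord z = 0) →
      P.ord t = 0 → ∃ z ∈ E⟮t⟯, P.ord z = 1) : IsUniruled ℂ K N := by
  classical
  have htE := trdeg_E ht halg hK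
  have hdiv : ∀ P : Place ℂ K, (∀ z ∈ E, z ≠ 0 → P.ord z = 0) →
      Pool.Agent.W602.GT.Divisorial N P := by
    intro P hP
    have h1 : Algebra.trdeg ℂ E = ((N - 1 : ℕ) : Cardinal) := by
      have hN : 1 ≤ N := by
        rcases Nat.eq_zero_or_pos N with rfl | h
        · exfalso
          have h2 : (1 : Cardinal.{0}) ≤ 0 := by
            have h3 : (1 : Cardinal.{0}) ≤ Algebra.trdeg ℂ E + 1 := le_add_self
            rw [htE] at h3
            exact_mod_cast h3
          exact absurd h2 (by simp)
        · exact h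
      obtain ⟨N, rfl⟩ := Nat.exists_eq_add_of_le hN
      rw [Nat.add_sub_cancel_left]
      have h2 : Algebra.trdeg ℂ E + 1 = (N : Cardinal) + 1 := by
        rw [htE]
        push_cast
        ring
      exact Cardinal.add_one_inj.1 h2
    obtain ⟨s, hs⟩ := exists_isTranscendenceBasis ℂ E
    have hcard := hs.cardinalMk_eq_trdeg
    rw [h1] at hcard
    obtain ⟨e⟩ : Nonempty (Fin (N - 1) ≃ s) := by
      rw [← Cardinal.eq, Cardinal.mk_fin]
      exact hcard.symm
    refine ⟨fun i => ((e i : E) : K), fun F hF => ?_⟩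
    have h2 : AlgebraicIndependent ℂ (fun i => (e i : E)) := hs.1.comp _ e.injective
    have h3 : MvPolynomial.aeval (fun i => (e i : E)) F ≠ 0 := by
      intro h0
      exact hF (h2.eq_zero_of_aeval_eq_zero F h0)
    have h4 : MvPolynomial.aeval (fun i => ((e i : E) : K)) F =
        ((MvPolynomial.aeval (fun i => (e i : E)) F : E) : K) := by
      have := MvPolynomial.comp_aeval_apply (E.val) (f := fun i => (e i : E)) F
      exact this.symm
    have h5 : ((MvPolynomial.aeval (fun i => (e i : E)) F : E) : K) ≠ 0 := by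
      intro h0
      exact h3 (Subtype.ext h0)
    rw [h4]
    exact ⟨h5, hP _ (Subtype.coe_prop _) h5⟩
  obtain ⟨w, hw⟩ := geom_rational ht halg fun P hP => hun P (hdiv P hP) hP
  refine Pool.Agent.TH585.SV.unir_of_adjoin (Ω := AlgebraicClosure K) hK
    ((Cl E).restrictScalars ℂ) (w : AlgebraicClosure K) ?_ fun g => ?_
  · have h1 : Algebra.trdeg ℂ (Cl E) = Algebra.trdeg ℂ E := by
      have h3 : Algebra.trdeg E (Cl E) = 0 := trdeg_eq_zero_iff.2 inferInstance
      rw [← _root_.trdeg_add_eq ℂ E (A := Cl E), h3, add_zero]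
    have h2 : Algebra.trdeg ℂ ((Cl E).restrictScalars ℂ) = Algebra.trdeg ℂ (Cl E) := rfl
    rw [h2, h1, htE]
  · have h1 : ∀ z : Rg E, z ∈ (Cl E)⟮w⟯ → (z : AlgebraicClosure K) ∈ IntermediateField.adjoin ℂ
        ((((Cl E).restrictScalars ℂ : IntermediateField ℂ (AlgebraicClosure K)) :
          Set (AlgebraicClosure K)) ∪ {(w : AlgebraicClosure K)}) := by
      intro z hz
      induction hz using IntermediateField.adjoin_induction with
      | mem x hx =>
        rw [Set.mem_singleton_iff.1 hx]
        exact subset_adjoin _ _ (Or.inr rfl)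
      | algebraMap x => exact subset_adjoin _ _ (Or.inl x.2)
      | add x y _ _ hx hy => exact add_mem hx hy
      | inv x _ hx => exact inv_mem hx
      | mul x y _ _ hx hy => exact mul_mem hx hy
    exact h1 (em E g) (by rw [hw]; trivial)

end Pool.Agent.X180.Unr
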